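import Pool.Agent.Helper79.GS.St2

/-!
# Project GS (MP_c2d095_lc), module GSC: scores of reversible placements
-/

set_option autoImplicit false

namespace Pool.Agent.Helper62.GS

open Pool.Agent.Helper79.GS Pool.Agent.Helper19.SK

theorem hGSC (hKRV : StKRV) (hKSC : StKSC) : StGSC := by
  intro V _ G b b' h
  obtain ⟨e, he, rfl⟩ := hKRV V G true b b' h
  obtain ⟨h1, h2⟩ := hKSC V G b e he
  show (area G (play G b true e) true : ℤ) - (area G (play G b true e) false : ℤ) =
    (area G b true : ℤ) - (area G b false : ℤ) + 4
  rw [h1, h2]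
  push_cast
  ring

end Pool.Agent.Helper62.GS
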